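import Pool.Agent.Run7.h891.RaylessAll

/-! Q2 of MP_0d2ef4_co (are the rayless graphs of arbitrary cardinality well-quasi-ordered under
minors?): equivalence with better-quasi-ordering and with the connected case, for all rayless
graphs and for those with at most `κ` vertices, for every infinite cardinal `κ`.

The definitions are in `Pool/Agent/Run7/h891/Defs.lean` and `Defs4.lean`. -/

set_option autoImplicit false

open Cardinal

namespace Pool.Agent.Results.MP_0d2ef4_co.AllCardinalities

open Run7.h891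

theorem result :
    [WqoOn {G | Rayless G.2},
      BqoOn {G | Rayless G.2},
      WqoOn {G | Rayless G.2 ∧ G.2.Connected}].TFAE ∧
    ∀ κ : Cardinal.{0}, ℵ₀ ≤ κ →
      [WqoOn {G | Rayless G.2 ∧ #G.1 ≤ κ},
        BqoOn {G | Rayless G.2 ∧ #G.1 ≤ κ},
        WqoOn {G | (Rayless G.2 ∧ #G.1 ≤ κ) ∧ G.2.Connected}].TFAE := by
  refine ⟨?_, fun κ hκ => ?_⟩
  · have h := Cls.rayless_tfae
    tfae_have 1 ↔ 2 := h.out 1 2
    tfae_have 1 ↔ 3 := h.out 1 0
    tfae_finish
  · have h := Cls.rayless_card_tfae hκ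
    tfae_have 1 ↔ 2 := h.out 1 2
    tfae_have 1 ↔ 3 := h.out 1 0
    tfae_finish

end Pool.Agent.Results.MP_0d2ef4_co.AllCardinalities
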