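import Pool.Agent.Run7.h891.WqoPage

/-! Q1 of MP_0d2ef4_co (are the countable rayless graphs well-quasi-ordered under minors?):
equivalence with better-quasi-ordering, with the rooted version, with the countability of the
number of classes of mutual minors in each rank, and with the absence of a perfect antichain.

The definitions are in `Pool/Agent/Run7/h891/Defs.lean`, `Defs2.lean`, `Defs3.lean`. -/

set_option autoImplicit false

open Ordinal Cardinal

namespace Pool.Agent.Results.MP_0d2ef4_co.WqoBqoPerfectAntichain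

open Run7.h891

theorem result :
    [WellQuasiOrdered MinorLE,
      BetterQuasiOrdered MinorLE,
      ∀ (n : ℕ) (V : ℕ → Type) (_ : ∀ i, Countable (V i)) (G : ∀ i, SimpleGraph (V i))
        (r : ∀ i, Fin n ↪ V i), (∀ i, Rayless (G i)) →
        ∃ i j, i < j ∧ IsRootedMinor (G i) (r i) (G j) (r j),
      ∀ α < ω₁, CountablyManyTwinClasses α,
      ∀ α < ω₁, #(minorClosedFamilies α) ≤ 𝔠,
      ¬ ∃ Φ : (ℕ → Bool) → SimpleGraph ℕ, @Continuous _ _ _ graphTopology Φ ∧
        (∀ t, Rayless (Φ t)) ∧ ∀ t t', t ≠ t' → ¬ IsMinor (Φ t) (Φ t'),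
      ¬ ∃ Φ : (ℕ → Bool) → SimpleGraph ℕ, @Continuous _ _ _ graphTopology Φ ∧
        (∀ t, Rayless (Φ t)) ∧
        ∀ t t', t ≠ t' → ¬ (IsMinor (Φ t) (Φ t') ∧ IsMinor (Φ t') (Φ t))].TFAE :=
  wqo_tfae

end Pool.Agent.Results.MP_0d2ef4_co.WqoBqoPerfectAntichain
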